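import Pool.Agent.Lib.MP_efc1da_co.Frag
import Pool.Agent.Lib.MP_efc1da_co.Num1
import Pool.Agent.Lib.MP_efc1da_co.Spread
import Pool.Agent.Lib.MP_efc1da_co.Cross
import Pool.Agent.Lib.MP_efc1da_co.EL
import Pool.Agent.Lib.MP_efc1da_co.Low
import Pool.Agent.Lib.MP_efc1da_co.Dec
import Pool.Agent.Lib.MP_efc1da_co.Hit
import Pool.Agent.Lib.MP_efc1da_co.Pop
import Pool.Agent.Lib.MP_efc1da_co.Greedy
import Pool.Agent.Lib.MP_efc1da_co.Main

/-!
Intersecting k-graphs of covering number k: deleting `a` vertices (suitably chosen) destroys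
all but a fraction `exp(-a log k/(64k))` of the maximum number of members.
-/

set_option autoImplicit false

namespace Pool.Agent.Results.MP_efc1da_co.DeletedVertices

/-- `m(k,a) ≤ exp(-a log k/(64k)) m(k,0)` for all `k ≥ 1` and all `a`. -/
theorem result :
  ∀ m : ℕ → ℕ → ℕ,
    (∀ k a : ℕ, m k a = sSup {v : ℕ | ∃ n : ℕ, ∃ F : Finset (Finset (Fin n)),
      (∀ A ∈ F, A.card = k) ∧
      (∀ A ∈ F, ∀ A' ∈ F, ¬ Disjoint A A') ∧
      (∀ T : Finset (Fin n), T.card < k → ∃ A ∈ F, Disjoint A T) ∧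
      (∃ B : Finset (Fin n), B.card = a ∧ (F.filter (fun A => Disjoint A B)).card = v) ∧
      (∀ B : Finset (Fin n), B.card = a → v ≤ (F.filter (fun A => Disjoint A B)).card)}) →
    ∀ k a : ℕ, 1 ≤ k →
      (m k a : ℝ) ≤ Real.exp (-(a * Real.log k / (64 * k))) * (m k 0 : ℝ) := by
  open Pool.Agent.Efc in
  exact main (greedy (pop (hit (cross (spread frag num1)) dec) el)) el low

end Pool.Agent.Results.MP_efc1da_co.DeletedVertices
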