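import Pool.Agent.Lib.MP_efc1da_co.EL
import Pool.Agent.Lib.MP_efc1da_co.Low
import Pool.Agent.Lib.MP_efc1da_coA.Upf2
import Pool.Agent.Lib.MP_efc1da_coA.Lws
import Pool.Agent.Lib.MP_efc1da_coA.Grw
import Pool.Agent.Lib.MP_efc1da_coA.Gdb
import Pool.Agent.Lib.MP_efc1da_coF.Ff

/-!
Intersecting k-graphs of covering number k: for almost all k, there are families in which the deletion of
any `a` vertices leaves at least a `(C a)^(-C a) k^(-a)` part of the maximum number of members, for all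
`a < k`.
-/

set_option autoImplicit false

namespace Pool.Agent.Results.MP_efc1da_co.DeletionLowerBound

open Pool.Agent.EfcA Pool.Agent.EfcF

/-- For every `δ > 0` there is `C` such that for all but at most `δ n` of the `k ≤ n`:
`m(k,a) ≥ (C a)^(-C a) k^(-a) m(k,0)` for all `a < k`. -/
theorem result :
  ∀ m : ℕ → ℕ → ℕ,
    (∀ k a : ℕ, m k a = sSup {v : ℕ | ∃ n : ℕ, ∃ F : Finset (Finset (Fin n)),
      (∀ A ∈ F, A.card = k) ∧
      (∀ A ∈ F, ∀ A' ∈ F, ¬ Disjoint A A') ∧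
      (∀ T : Finset (Fin n), T.card < k → ∃ A ∈ F, Disjoint A T) ∧
      (∃ B : Finset (Fin n), B.card = a ∧ (F.filter (fun A => Disjoint A B)).card = v) ∧
      (∀ B : Finset (Fin n), B.card = a → v ≤ (F.filter (fun A => Disjoint A B)).card)}) →
    ∀ δ : ℝ, 0 < δ → ∃ C : ℕ, ∀ n : ℕ,
      ({k : ℕ | k ≤ n ∧ ∃ a : ℕ, a < k ∧ (C * a) ^ (C * a) * k ^ a * m k a < m k 0}.ncard : ℝ) ≤
        δ * n := by
  intro m hm δ hδ
  obtain ⟨C, h⟩ := stmtFi stmtGrw (stmtGdb stmtUpf2 Pool.Agent.Efc.el) stmtLws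
    Pool.Agent.Efc.el Pool.Agent.Efc.low m hm δ hδ
  refine ⟨C, fun n => ?_⟩
  have hfin : {k : ℕ | k ≤ n ∧ ∃ a : ℕ, a < k ∧
      (C * a) ^ (C * a) * k ^ a * m k a < m k 0}.Finite :=
    (Set.finite_Icc 0 n).subset fun k hk => ⟨Nat.zero_le k, hk.1⟩
  rw [Set.ncard_eq_toFinset_card _ hfin]
  exact h n _ fun k hk => (Set.Finite.mem_toFinset hfin).1 hk

end Pool.Agent.Results.MP_efc1da_co.DeletionLowerBound
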