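import Pool.Agent.Lib.MP_efc1da_co.EL
import Pool.Agent.Lib.MP_efc1da_co.Low
import Pool.Agent.Lib.MP_efc1da_coA.Frn
import Pool.Agent.Lib.MP_efc1da_coA.Nmn
import Pool.Agent.Lib.MP_efc1da_coA.Spn
import Pool.Agent.Lib.MP_efc1da_coA.Sqn
import Pool.Agent.Lib.MP_efc1da_coA.Crx
import Pool.Agent.Lib.MP_efc1da_coA.Mxa
import Pool.Agent.Lib.MP_efc1da_coA.Dca
import Pool.Agent.Lib.MP_efc1da_coA.Sza
import Pool.Agent.Lib.MP_efc1da_coA.Hta
import Pool.Agent.Lib.MP_efc1da_coA.Nm7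
import Pool.Agent.Lib.MP_efc1da_coA.Pr1
import Pool.Agent.Lib.MP_efc1da_coA.Pr2
import Pool.Agent.Lib.MP_efc1da_coA.Pr3
import Pool.Agent.Lib.MP_efc1da_coA.Stp
import Pool.Agent.Lib.MP_efc1da_coA.Ind
import Pool.Agent.Lib.MP_efc1da_coA.Ppv
import Pool.Agent.Lib.MP_efc1da_coA.Grl
import Pool.Agent.Lib.MP_efc1da_coA.Upf2
import Pool.Agent.Lib.MP_efc1da_coA.Lws
import Pool.Agent.Lib.MP_efc1da_coA.Grw
import Pool.Agent.Lib.MP_efc1da_coA.Gdb
import Pool.Agent.Lib.MP_efc1da_coA.FinL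

/-!
Intersecting k-graphs of covering number k: for almost all k, the deletion of `a` suitable vertices destroys all
but a fraction `exp(-c a)` of the maximum number of members.
-/

set_option autoImplicit false

namespace Pool.Agent.Results.MP_efc1da_co.ExpDecay

open Pool.Agent.EfcA

/-- For every `δ > 0` there is `c > 0` such that for all but at most `δ n` of the `k ≤ n`:
`m(k,a) ≤ exp(-c a) m(k,0)` for all `a`. -/
theorem result :
  ∀ m : ℕ → ℕ → ℕ,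
    (∀ k a : ℕ, m k a = sSup {v : ℕ | ∃ n : ℕ, ∃ F : Finset (Finset (Fin n)),
      (∀ A ∈ F, A.card = k) ∧
      (∀ A ∈ F, ∀ A' ∈ F, ¬ Disjoint A A') ∧
      (∀ T : Finset (Fin n), T.card < k → ∃ A ∈ F, Disjoint A T) ∧
      (∃ B : Finset (Fin n), B.card = a ∧ (F.filter (fun A => Disjoint A B)).card = v) ∧
      (∀ B : Finset (Fin n), B.card = a → v ≤ (F.filter (fun A => Disjoint A B)).card)}) →
    ∀ δ : ℝ, 0 < δ → ∃ c : ℝ, 0 < c ∧ ∀ n : ℕ,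
      ({k : ℕ | 1 ≤ k ∧ k ≤ n ∧
        ∃ a : ℕ, Real.exp (-(c * a)) * (m k 0 : ℝ) < (m k a : ℝ)}.ncard : ℝ) ≤
          δ * n := by
  intro m hm δ hδ
  have hmxa := stmtMxa
  have hdca := stmtDca
  have hsza := stmtSza
  have hhta := stmtHta
  have hcrx := stmtCrx (stmtSpn stmtFrn stmtNmn) stmtSqn
  have hstp := stmtStp hcrx (stmtPr1 hmxa hsza hhta) (stmtPr2 hdca hsza) (stmtPr3 hdca hsza hhta)
  have hind := stmtInd stmtNm7 hstp
  have hgrl := stmtGrl hmxa hsza hind (stmtPpv hmxa hsza hind)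
  have hgdb := stmtGdb stmtUpf2 Pool.Agent.Efc.el
  obtain ⟨c, hc, h⟩ := stmtFinL hgrl stmtGrw hgdb stmtLws Pool.Agent.Efc.el Pool.Agent.Efc.low
    m hm δ hδ
  refine ⟨c, hc, fun n => ?_⟩
  have hfin : {k : ℕ | 1 ≤ k ∧ k ≤ n ∧
      ∃ a : ℕ, Real.exp (-(c * a)) * (m k 0 : ℝ) < (m k a : ℝ)}.Finite :=
    (Set.finite_Icc 1 n).subset fun k hk => ⟨hk.1, hk.2.1⟩
  rw [Set.ncard_eq_toFinset_card _ hfin]
  exact h n _ fun k hk => (Set.Finite.mem_toFinset hfin).1 hk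

end Pool.Agent.Results.MP_efc1da_co.ExpDecay
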