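import Pool.Agent.Lib.MP_efc1da_co.EL
import Pool.Agent.Lib.MP_efc1da_co.Low
import Pool.Agent.Lib.MP_efc1da_co.Frag
import Pool.Agent.Lib.MP_efc1da_co.Num1
import Pool.Agent.Lib.MP_efc1da_co.Spread
import Pool.Agent.Lib.MP_efc1da_co.Cross
import Pool.Agent.Lib.MP_efc1da_coE.Fe

/-!
Intersecting k-graphs of covering number k: bounds for the deletion of many vertices, for all k.
-/

set_option autoImplicit false

namespace Pool.Agent.Results.MP_efc1da_co.ManyDeleted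

open Pool.Agent.Efc Pool.Agent.EfcE

/-- If `β + 1/C < 1` then for all large `k` and all `a ≥ C k/log log k`:
`m(k,a) ≤ (log k)^(-βa) m(k,0)`; and `m(k,a) ≥ k!/(a+1)!` for all `a < k`. -/
theorem result :
  ∀ m : ℕ → ℕ → ℕ,
    (∀ k a : ℕ, m k a = sSup {v : ℕ | ∃ n : ℕ, ∃ F : Finset (Finset (Fin n)),
      (∀ A ∈ F, A.card = k) ∧
      (∀ A ∈ F, ∀ A' ∈ F, ¬ Disjoint A A') ∧
      (∀ T : Finset (Fin n), T.card < k → ∃ A ∈ F, Disjoint A T) ∧
      (∃ B : Finset (Fin n), B.card = a ∧ (F.filter (fun A => Disjoint A B)).card = v) ∧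
      (∀ B : Finset (Fin n), B.card = a → v ≤ (F.filter (fun A => Disjoint A B)).card)}) →
    (∀ β C : ℝ, 0 < β → 0 < C → β + 1 / C < 1 → ∃ k₀ : ℕ, ∀ k : ℕ, k₀ ≤ k → ∀ a : ℕ,
      C * k ≤ a * Real.log (Real.log k) →
        (m k a : ℝ) ≤ (Real.log k) ^ (-(β * a)) * (m k 0 : ℝ)) ∧
    ∀ k a : ℕ, a < k → k.factorial ≤ (a + 1).factorial * m k a :=
  stmtFe (cross (spread frag num1)) el Pool.Agent.Efc.low

end Pool.Agent.Results.MP_efc1da_co.ManyDeleted
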